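import Pool.Agent.Helper46.PowGame.Lower

/-!
# The order of growth of the game colouring number of powers of partial `k`-trees
-/

set_option autoImplicit false

namespace Pool.Agent.Results.MP_c9f8d2_co.OrderOfGrowth

open Pool.Agent.Helper46.PowGame

/-- `f k m Δ = Θ(Δ ^ ⌊m/2⌋)` with explicit constants. -/
theorem result : ∀ k m Δ : ℕ, 1 ≤ k → 1 ≤ Δ →
    (Δ : ℕ∞) ^ (m / 2) ≤ 2 ^ (m / 2) * f k m Δ ∧
      f k m Δ ≤ 4 * (k + 1) ^ (3 * m) * 2 ^ (m / 2) * (Δ : ℕ∞) ^ (m / 2) :=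
  main

end Pool.Agent.Results.MP_c9f8d2_co.OrderOfGrowth
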